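import Mathlib
import Pool.Agent.Y131.Pack
import Pool.Agent.Y131.Ord

/-!
# Tate classes on all powers of ordinary abelian varieties with places of odd or small toric rank, over
finitely generated fields of positive characteristic

Let `A` be an abelian variety over a finitely generated field `k` of characteristic `p` which is
ordinary, and `ℓ ≠ p`; `V = V_ℓ(A)` is the rational Tate module with the action `ρ` of the Galois
group `Γ`, `χ` the cyclotomic character and `ω` the Weil pairing of a polarization; `K` is the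
algebraic closure of `ℚ_ℓ` and `X = K ⊗ V`. The representation is semisimple (Tate, Zarhin, Mori).
A model of `A` over an open subset of a normal variety over a finite field has ordinary reduction
at all closed points (after shrinking); for a Frobenius element `F` at such a point each `p`-adic
valuation `a`, normalized at the multiplier of `F`, has the values `0`, `1` at the eigenvalues of `F`,
and two eigenvalues with the same valuations, for all `a`, are Weil numbers whose quotient is a root of
unity, whose order is bounded. These elements are dense in the Galois group of the base, so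
operators that commute with their `m`-th powers commute with an open subgroup: the condition
`HasOrdinaryFrobenii` is satisfied. (It is also satisfied over any finitely generated field if the
places of ordinary reduction have density one.)

Hypothesis on the toric rank: every strongly irreducible `U` (a minimal nonzero subspace of `X` stable
under a subgroup of finite index) which is not a line has rank one, or, if it is symplectic, rank two or
odd rank, for an element `γ` of the group with `(γ - 1) ^ 2 = 0`: a generator of the pro-`ℓ` part of the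
inertia group of a discrete valuation of a finite extension of `k` at which `A` has semistable reduction.
For example, `End(A) = ℤ` and at some such valuation the toric rank is odd, or two.
-/

namespace Pool.Agent.Results.MP_7b53ad_ag.OrdinaryOddToricRank

open Module TensorProduct Pool.Agent.Y131

section

variable {K X Γ : Type} [Field K] [AddCommGroup X] [Module K X] [Group Γ]

/-- `F` is diagonalizable, and there is a set of additive functions (valuations) on the multiplicative
group of `K` with the value `1` at the multiplier of `F` and the values `0`, `1` at the eigenvalues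
of `F`, such that the `m`-th powers of two eigenvalues are equal if all these valuations agree. -/
def IsOrdinaryFrobenius (R : Representation K Γ X) (χ : Γ →* K) (m : ℕ) (F : Γ) : Prop :=
  ∃ (b : Basis (Fin (finrank K X)) K X) (lam : Fin (finrank K X) → Kˣ),
    (∀ k, R F (b k) = (lam k : K) • b k) ∧ ∃ 𝒱 : Set (Additive Kˣ →+ ℚ),
      (∀ a ∈ 𝒱, ∀ x : Kˣ, (x : K) = χ F → a (Additive.ofMul x) = 1) ∧
      (∀ a ∈ 𝒱, ∀ k, a (Additive.ofMul (lam k)) = 0 ∨ a (Additive.ofMul (lam k)) = 1) ∧
      ∀ k l, (∀ a ∈ 𝒱, a (Additive.ofMul (lam k)) = a (Additive.ofMul (lam l))) →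
        lam k ^ m = lam l ^ m

/-- For some `m`, operators that commute with the `m`-th powers of all ordinary Frobenius elements
commute with a subgroup of finite index. -/
def HasOrdinaryFrobenii (R : Representation K Γ X) (χ : Γ →* K) : Prop :=
  ∃ m : ℕ, ∀ P : Module.End K X,
    (∀ F, IsOrdinaryFrobenius R χ m F → P * R (F ^ m) = R (F ^ m) * P) →
    ∃ Δ : Subgroup Γ, Δ.FiniteIndex ∧ ∀ g ∈ Δ, P * R g = R g * P

/-- For every strongly irreducible subspace `U` of dimension at least two there is an element `γ`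
with `(γ - 1) ^ 2 = 0` such that `γ - 1` has rank one on `U`, or `U` is symplectic and the rank is two
or odd. -/
def HasOddToricPlaces (R : Representation K Γ X) (χ : Γ →* K) : Prop :=
  ∀ U, StronglyIrreducible R U → 2 ≤ finrank K U → ∃ γ : Γ, (R γ - 1) * (R γ - 1) = 0 ∧
    (finrank K (U.map (R γ - 1)) = 1 ∨ (IsSymplectic R χ U ∧
      (finrank K (U.map (R γ - 1)) = 2 ∨ Odd (finrank K (U.map (R γ - 1))))))

end

open Pool.Agent.H204R3.SP Pool.Agent.H204R3.GP Pool.Agent.W522.U Pool.Agent.TH118.WC

theorem result (ℓ : ℕ) [Fact ℓ.Prime] {V Γ : Type} [AddCommGroup V] [Module ℚ_[ℓ] V]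
    [FiniteDimensional ℚ_[ℓ] V] [Group Γ] (ρ : Representation ℚ_[ℓ] Γ V) (χ : Γ →* ℚ_[ℓ])
    (ω : V →ₗ[ℚ_[ℓ]] V →ₗ[ℚ_[ℓ]] ℚ_[ℓ]) (halt : ∀ v, ω v v = 0)
    (hnondeg : ∀ u, (∀ v, ω v u = 0) → u = 0)
    (hω : ∀ s u v, ω (ρ s u) (ρ s v) = χ s * ω u v)
    (hsemisimple : PotentiallySemisimple ρ)
    (hordinary : HasOrdinaryFrobenii (extend (AlgebraicClosure ℚ_[ℓ]) ρ)
      (extendChar (AlgebraicClosure ℚ_[ℓ]) χ))
    (htoric : HasOddToricPlaces (extend (AlgebraicClosure ℚ_[ℓ]) ρ)
      (extendChar (AlgebraicClosure ℚ_[ℓ]) χ))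
    (hlines : NoSelfDualLines (extend (AlgebraicClosure ℚ_[ℓ]) ρ)
      (extendChar (AlgebraicClosure ℚ_[ℓ]) χ))
    (htwists : NoProperTwists (extend (AlgebraicClosure ℚ_[ℓ]) ρ)
      (extendChar (AlgebraicClosure ℚ_[ℓ]) χ)) :
    GeneratedByWeilClasses (AlgebraicClosure ℚ_[ℓ]) ρ χ ω ∧
    (NoWeilFamilies (extend (AlgebraicClosure ℚ_[ℓ]) ρ) (extendChar (AlgebraicClosure ℚ_[ℓ]) χ) →
      GeneratedInDegreeTwo ρ χ) := by
  have hl1 : ∀ u, (∀ v, bcb (AlgebraicClosure ℚ_[ℓ]) ω u v = 0) → u = 0 := fun u hu =>
    bcb_nondeg_left ω hnondeg (left_nondeg ω halt hnondeg) u hu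
  have hinv := bcb_inv (Ω := AlgebraicClosure ℚ_[ℓ]) ρ χ ω hω
  have hpr : HasProj (bcr ρ (AlgebraicClosure ℚ_[ℓ])) := hasProj_bcr ρ _ hsemisimple
  have hW : Pool.Agent.W528.Odd.WeakHodgeGenerate (bcr ρ (AlgebraicClosure ℚ_[ℓ]))
      (bcc χ (AlgebraicClosure ℚ_[ℓ])) := by
    intro P hP
    obtain ⟨m, hm⟩ := hordinary
    refine hm P ?_
    rintro F ⟨b, lam, hF, 𝒱, h1, h2, h3⟩
    exact Pool.Agent.Y131.SL.comm_of_ordinary hF 𝒱 h1 h2 h3 P hP
  refine pack (AlgebraicClosure ℚ_[ℓ]) ρ χ ω halt hnondeg hω fun m φ hφ =>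
    toric_det (bcb _ ω) hl1 hinv ?_ hlines htwists hpr φ hφ
  intro U hU h2
  obtain ⟨γ, hγ, h | ⟨hs, h | h⟩⟩ := htoric U hU h2
  · exact ⟨γ, hγ, Or.inl h⟩
  · exact ⟨γ, hγ, Or.inr ⟨hs, Or.inl h⟩⟩
  · exact ⟨γ, hγ, Or.inr ⟨hs, Or.inr ⟨h, hW⟩⟩⟩

end Pool.Agent.Results.MP_7b53ad_ag.OrdinaryOddToricRank
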